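import Mathlib

/-!
# Avoider-Enforcer games on linear hypergraphs of rank 3

Enforcer wins as last player on every linear hypergraph of rank 3 on `n ≥ 1` vertices with at least
`2 n` edges, in particular if the minimum degree is at least `6`.
-/

namespace Pool.Agent.Results.MP_8d7a8d_co.TwiceTheVertices

open Finset

/-- Enforcer, who makes the last move, has a winning strategy in the Avoider-Enforcer game on the
hypergraph with the set of edges `H`, from the position in which Avoider has picked the vertices
of `A`, the `k` vertices of `U` are not picked and all the other vertices have been picked by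
Enforcer. It is the turn of Enforcer if and only if `k` is odd; Enforcer wins if in the end
Avoider has picked all the vertices of an edge. -/
def EnforcerWins {V : Type} [DecidableEq V] (H : Finset (Finset V)) :
    ℕ → Finset V → Finset V → Prop
  | 0, A, _ => ∃ e ∈ H, e ⊆ A
  | k + 1, A, U =>
      if Odd (k + 1) then ∃ x ∈ U, EnforcerWins H k A (U.erase x)
      else ∀ y ∈ U, EnforcerWins H k (insert y A) (U.erase y)

variable {V : Type} [DecidableEq V]

/-- The weight of an edge. -/
def wt (A U e : Finset V) : ℚ :=
  if e ⊆ A ∪ U then (1 / 2 : ℚ) ^ ((e ∩ U).card + (3 - e.card)) else 0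

lemma wt_nonneg (A U e : Finset V) : 0 ≤ wt A U e := by
  unfold wt
  split_ifs
  · positivity
  · exact le_rfl

lemma wt_step (A U e : Finset V) (hAU : Disjoint A U) {x y : V} (hx : x ∈ U) (hy : y ∈ U)
    (hxy : x ≠ y) :
    wt (insert y A) ((U.erase x).erase y) e =
      wt A U e - (if x ∈ e then wt A U e else 0) + (if y ∈ e then wt A U e else 0)
        - (if x ∈ e ∧ y ∈ e then wt A U e else 0) := by
  have hxA : x ∉ A := fun h => (Finset.disjoint_left.mp hAU h hx)
  by_cases hxe : x ∈ e
  · have h1 : ¬ e ⊆ insert y A ∪ (U.erase x).erase y := by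
      intro h
      have := h hxe
      simp [hxy, hxA] at this
    have h0 : wt (insert y A) ((U.erase x).erase y) e = 0 := if_neg h1
    rw [h0]
    by_cases hye : y ∈ e <;> simp [hxe, hye]
  · have hsub : e ⊆ insert y A ∪ (U.erase x).erase y ↔ e ⊆ A ∪ U := by
      constructor
      · intro h v hv
        have := h hv
        simp only [mem_union, mem_insert, mem_erase] at this ⊢
        rcases this with (rfl | h) | ⟨_, _, h⟩
        · exact Or.inr hy
        · exact Or.inl h
        · exact Or.inr h
      · intro h v hv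
        have := h hv
        simp only [mem_union, mem_insert, mem_erase] at this ⊢
        by_cases hvy : v = y
        · exact Or.inl (Or.inl hvy)
        · rcases this with h | h
          · exact Or.inl (Or.inr h)
          · refine Or.inr ⟨hvy, ?_, h⟩
            rintro rfl
            exact hxe hv
    by_cases hye : y ∈ e
    · by_cases hs : e ⊆ A ∪ U
      · have h1 : e ∩ U = insert y (e ∩ ((U.erase x).erase y)) := by
          ext v
          simp only [mem_inter, mem_insert, mem_erase]
          constructor
          · rintro ⟨h1, h2⟩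
            by_cases hvy : v = y
            · exact Or.inl hvy
            · refine Or.inr ⟨h1, hvy, ?_, h2⟩
              rintro rfl
              exact hxe h1
          · rintro (rfl | ⟨h1, _, _, h2⟩)
            · exact ⟨hye, hy⟩
            · exact ⟨h1, h2⟩
        have h2 : (e ∩ U).card = (e ∩ ((U.erase x).erase y)).card + 1 := by
          rw [h1, card_insert_of_notMem]
          simp
        have h3 : e ⊆ insert y A ∪ (U.erase x).erase y := hsub.mpr hs
        have h0 : wt (insert y A) ((U.erase x).erase y) e =
            (1 / 2 : ℚ) ^ ((e ∩ ((U.erase x).erase y)).card + (3 - e.card)) := if_pos h3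
        have h0' : wt A U e =
            (1 / 2 : ℚ) ^ ((e ∩ ((U.erase x).erase y)).card + 1 + (3 - e.card)) := by
          unfold wt
          rw [if_pos hs, h2]
        rw [h0, h0', if_neg hxe, if_pos hye, if_neg (fun h => hxe h.1)]
        ring
      · have h3 : ¬ e ⊆ insert y A ∪ (U.erase x).erase y := fun h => hs (hsub.mp h)
        have h0 : wt (insert y A) ((U.erase x).erase y) e = 0 := if_neg h3
        have h0' : wt A U e = 0 := if_neg hs
        rw [h0, h0']
        simp
    · have h1 : e ∩ ((U.erase x).erase y) = e ∩ U := by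
        ext v
        simp only [mem_inter, mem_erase]
        constructor
        · rintro ⟨h1, _, _, h2⟩
          exact ⟨h1, h2⟩
        · rintro ⟨h1, h2⟩
          refine ⟨h1, ?_, ?_, h2⟩
          · rintro rfl
            exact hye h1
          · rintro rfl
            exact hxe h1
      by_cases hs : e ⊆ A ∪ U
      · have h3 : e ⊆ insert y A ∪ (U.erase x).erase y := hsub.mpr hs
        simp only [wt, h3, hs, hxe, hye, if_true, if_false, h1]
        simp
      · have h3 : ¬ e ⊆ insert y A ∪ (U.erase x).erase y := fun h => hs (hsub.mp h)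
        simp only [wt, h3, hs, hxe, hye, if_false]
        simp

/-- At most one edge contains two given vertices, and its weight is at most `1 / 4`. -/
lemma pair_le (H : Finset (Finset V)) (h3 : ∀ e ∈ H, e.card ≤ 3)
    (hlin : ∀ e ∈ H, ∀ f ∈ H, e ≠ f → (e ∩ f).card ≤ 1) (A U : Finset V)
    {x y : V} (hx : x ∈ U) (hy : y ∈ U) (hxy : x ≠ y) :
    ∑ e ∈ H, (if x ∈ e ∧ y ∈ e then wt A U e else 0) ≤ 1 / 4 := by
  rw [← Finset.sum_filter]
  have hc : (H.filter (fun e => x ∈ e ∧ y ∈ e)).card ≤ 1 := by
    rw [Finset.card_le_one]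
    intro e he f hf
    simp only [mem_filter] at he hf
    by_contra hne
    have h1 := hlin e he.1 f hf.1 hne
    have h2 : ({x, y} : Finset V) ⊆ e ∩ f := by
      intro v hv
      simp only [mem_insert, mem_singleton] at hv
      rcases hv with rfl | rfl
      · exact mem_inter.mpr ⟨he.2.1, hf.2.1⟩
      · exact mem_inter.mpr ⟨he.2.2, hf.2.2⟩
    have h3 := card_le_card h2
    rw [card_pair hxy] at h3
    omega
  have hw : ∀ e ∈ H.filter (fun e => x ∈ e ∧ y ∈ e), wt A U e ≤ 1 / 4 := by
    intro e he
    simp only [mem_filter] at he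
    unfold wt
    split_ifs with hs
    · have h2 : ({x, y} : Finset V) ⊆ e ∩ U := by
        intro v hv
        simp only [mem_insert, mem_singleton] at hv
        rcases hv with rfl | rfl
        · exact mem_inter.mpr ⟨he.2.1, hx⟩
        · exact mem_inter.mpr ⟨he.2.2, hy⟩
      have h4 := card_le_card h2
      rw [card_pair hxy] at h4
      have h5 : (1 / 2 : ℚ) ^ ((e ∩ U).card + (3 - e.card)) ≤ (1 / 2 : ℚ) ^ 2 :=
        pow_le_pow_of_le_one (by norm_num) (by norm_num) (by omega)
      calc _ ≤ (1 / 2 : ℚ) ^ 2 := h5
        _ = 1 / 4 := by norm_num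
    · norm_num
  calc ∑ e ∈ H.filter (fun e => x ∈ e ∧ y ∈ e), wt A U e
      ≤ (H.filter (fun e => x ∈ e ∧ y ∈ e)).card • (1 / 4 : ℚ) := sum_le_card_nsmul _ _ _ hw
    _ ≤ 1 • (1 / 4 : ℚ) := nsmul_le_nsmul_left (by norm_num) hc
    _ = 1 / 4 := by norm_num

/-- The weight of the edges through the last vertex. -/
lemma last_le (H : Finset (Finset V)) (h3 : ∀ e ∈ H, e.card ≤ 3)
    (hlin : ∀ e ∈ H, ∀ f ∈ H, e ≠ f → (e ∩ f).card ≤ 1) (A : Finset V) (z : V) (hz : z ∉ A) :
    ∑ e ∈ H, (if z ∈ e then wt A {z} e else 0) ≤ A.card / 4 + 1 / 8 := by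
  set L := H.filter (fun e => z ∈ e ∧ e ⊆ A ∪ {z}) with hL
  have h1 : ∑ e ∈ H, (if z ∈ e then wt A {z} e else 0) = ∑ e ∈ L, wt A {z} e := by
    rw [hL, Finset.sum_filter]
    refine sum_congr rfl fun e _ => ?_
    by_cases h1 : z ∈ e
    · by_cases h2 : e ⊆ A ∪ {z}
      · rw [if_pos h1, if_pos ⟨h1, h2⟩]
      · rw [if_pos h1, if_neg (fun h => h2 h.2)]
        exact if_neg h2
    · rw [if_neg h1, if_neg (fun h => h1 h.1)]
  have h2 : ∀ e ∈ L, wt A {z} e ≤ ((e.erase z).card : ℚ) / 4 + (if e = {z} then 1 / 8 else 0) := by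
    intro e he
    rw [hL, mem_filter] at he
    obtain ⟨heH, hze, hs⟩ := he
    have hc := card_erase_of_mem hze
    have hpos : 0 < e.card := card_pos.mpr ⟨z, hze⟩
    have h3' := h3 e heH
    have hcu : (e ∩ {z}).card = 1 := by
      rw [inter_singleton_of_mem hze, card_singleton]
    unfold wt
    rw [if_pos hs, hcu]
    by_cases he1 : e = {z}
    · subst he1
      simp
      norm_num
    · rw [if_neg he1]
      have hne1 : e.card ≠ 1 := by
        intro h
        rw [card_eq_one] at h
        obtain ⟨a, rfl⟩ := h
        apply he1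
        rw [mem_singleton] at hze
        rw [hze]
      have : e.card = 2 ∨ e.card = 3 := by omega
      rcases this with h | h
      · rw [hc, h]; norm_num
      · rw [hc, h]; norm_num
  have h4 : ∑ e ∈ L, (((e.erase z).card : ℚ) / 4) ≤ A.card / 4 := by
    rw [← sum_div]
    have h5 : ∑ e ∈ L, (e.erase z).card ≤ A.card := by
      rw [← card_biUnion]
      · apply card_le_card
        intro v hv
        rw [mem_biUnion] at hv
        obtain ⟨e, he, hv⟩ := hv
        rw [hL, mem_filter] at he
        rw [mem_erase] at hv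
        have := he.2.2 hv.2
        rw [mem_union, mem_singleton] at this
        rcases this with h | h
        · exact h
        · exact absurd h hv.1
      · intro e he f hf hne
        rw [hL, mem_coe, mem_filter] at he hf
        show Disjoint (e.erase z) (f.erase z)
        rw [disjoint_left]
        intro v hve hvf
        rw [mem_erase] at hve hvf
        have h6 := hlin e he.1 f hf.1 hne
        have h7 : ({v, z} : Finset V) ⊆ e ∩ f := by
          intro u hu
          simp only [mem_insert, mem_singleton] at hu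
          rcases hu with rfl | rfl
          · exact mem_inter.mpr ⟨hve.2, hvf.2⟩
          · exact mem_inter.mpr ⟨he.2.1, hf.2.1⟩
        have h8 := card_le_card h7
        rw [card_pair hve.1] at h8
        omega
    have h6 : ((∑ e ∈ L, (e.erase z).card : ℕ) : ℚ) ≤ A.card := by exact_mod_cast h5
    push_cast at h6
    linarith
  have h5 : ∑ e ∈ L, (if e = {z} then (1 / 8 : ℚ) else 0) ≤ 1 / 8 := by
    rw [Finset.sum_ite_eq' L {z} (fun _ => (1 / 8 : ℚ))]
    split_ifs <;> norm_num
  rw [h1]
  calc ∑ e ∈ L, wt A {z} e
      ≤ ∑ e ∈ L, (((e.erase z).card : ℚ) / 4 + (if e = {z} then 1 / 8 else 0)) := sum_le_sum h2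
    _ = ∑ e ∈ L, (((e.erase z).card : ℚ) / 4) + ∑ e ∈ L, (if e = {z} then (1 / 8 : ℚ) else 0) :=
        sum_add_distrib
    _ ≤ _ := add_le_add h4 h5

lemma odd_turn (H : Finset (Finset V)) (h3 : ∀ e ∈ H, e.card ≤ 3)
    (hlin : ∀ e ∈ H, ∀ f ∈ H, e ≠ f → (e ∩ f).card ≤ 1) (m : ℕ) :
    ∀ A U : Finset V, Disjoint A U → U.card = 2 * m + 1 →
      ((2 * m + A.card : ℚ) / 4 + 1 / 8 < ∑ e ∈ H, wt A U e) →
      EnforcerWins H (2 * m + 1) A U := by
  induction m with
  | zero =>
    intro A U hAU hU hw
    have hU1 : U.card = 1 := by simpa using hU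
    obtain ⟨z, rfl⟩ := card_eq_one.mp hU1
    have hz : z ∉ A := fun h => (Finset.disjoint_left.mp hAU h (mem_singleton_self z))
    have h1 := last_le H h3 hlin A z hz
    have h2 : ∃ e ∈ H, z ∉ e ∧ wt A {z} e ≠ 0 := by
      by_contra hcon
      push Not at hcon
      have h4 : ∑ e ∈ H, wt A {z} e = ∑ e ∈ H, (if z ∈ e then wt A {z} e else 0) := by
        refine sum_congr rfl fun e he => ?_
        by_cases hze : z ∈ e
        · rw [if_pos hze]
        · rw [if_neg hze, hcon e he hze]
      rw [h4] at hw
      have : ((2 * ((0 : ℕ) : ℚ) + A.card) / 4 + 1 / 8 : ℚ) = A.card / 4 + 1 / 8 := by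
        push_cast; ring
      rw [this] at hw
      linarith
    obtain ⟨e, he, hze, hwe⟩ := h2
    show EnforcerWins H (0 + 1) A {z}
    unfold EnforcerWins
    rw [if_pos (by decide)]
    refine ⟨z, mem_singleton_self z, e, he, ?_⟩
    intro v hv
    unfold wt at hwe
    have hs : e ⊆ A ∪ {z} := by
      by_contra hs
      exact hwe (if_neg hs)
    have := hs hv
    rw [mem_union, mem_singleton] at this
    rcases this with h | h
    · exact h
    · exact absurd (h ▸ hv) hze
  | succ m ih =>
    intro A U hAU hU hw
    have hne : U.Nonempty := by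
      rw [← card_pos, hU]; omega
    obtain ⟨x, hx, hmin⟩ := exists_min_image U (fun v => ∑ e ∈ H, (if v ∈ e then wt A U e else 0)) hne
    show EnforcerWins H ((2 * m + 2) + 1) A U
    unfold EnforcerWins
    rw [if_pos ⟨m + 1, by ring⟩]
    refine ⟨x, hx, ?_⟩
    show EnforcerWins H ((2 * m + 1) + 1) A (U.erase x)
    unfold EnforcerWins
    rw [if_neg (by rw [Nat.not_odd_iff_even]; exact ⟨m + 1, by ring⟩)]
    intro y hy
    have hyx : y ≠ x := (mem_erase.mp hy).1
    have hyU : y ∈ U := (mem_erase.mp hy).2
    apply ih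
    · rw [disjoint_left]
      intro v hv hv'
      rw [mem_insert] at hv
      rw [mem_erase, mem_erase] at hv'
      rcases hv with rfl | hv
      · exact hv'.1 rfl
      · exact disjoint_left.mp hAU hv hv'.2.2
    · rw [card_erase_of_mem hy, card_erase_of_mem hx, hU]
      omega
    · have hyA : y ∉ A := fun h => disjoint_left.mp hAU h hyU
      have h1 : ∑ e ∈ H, wt (insert y A) ((U.erase x).erase y) e =
          ∑ e ∈ H, wt A U e - ∑ e ∈ H, (if x ∈ e then wt A U e else 0)
            + ∑ e ∈ H, (if y ∈ e then wt A U e else 0)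
            - ∑ e ∈ H, (if x ∈ e ∧ y ∈ e then wt A U e else 0) := by
        rw [← sum_sub_distrib, ← sum_add_distrib, ← sum_sub_distrib]
        exact sum_congr rfl fun e _ => wt_step A U e hAU hx hyU hyx.symm
      have h2 := pair_le H h3 hlin A U hx hyU hyx.symm
      have h4 := hmin y hyU
      rw [h1, card_insert_of_notMem hyA]
      push_cast at hw ⊢
      linarith

/-- **Answer to Q1.** Let `H` be a linear hypergraph of rank 3 with the nonempty finite set of
vertices `V`. If `H` has at least `2 |V|` edges, in particular if all its degrees are at least `6`,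
then Enforcer wins as last player. -/
theorem result (V : Type) [Fintype V] [DecidableEq V] [Nonempty V] (H : Finset (Finset V))
    (h3 : ∀ e ∈ H, e.card ≤ 3)
    (hlin : ∀ e ∈ H, ∀ f ∈ H, e ≠ f → (e ∩ f).card ≤ 1)
    (hdeg : 2 * Fintype.card V ≤ H.card ∨ ∀ v : V, 6 ≤ (H.filter (fun e => v ∈ e)).card) :
    EnforcerWins H (Fintype.card V) ∅ Finset.univ := by
  have hcard : 2 * Fintype.card V ≤ H.card := by
    rcases hdeg with h | h
    · exact h
    · have h1 : ∑ v : V, (H.filter (fun e => v ∈ e)).card = ∑ e ∈ H, e.card := by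
        have := Finset.sum_card_bipartiteAbove_eq_sum_card_bipartiteBelow
          (s := (Finset.univ : Finset V)) (t := H) (fun (v : V) (e : Finset V) => v ∈ e)
        simp only [bipartiteAbove, bipartiteBelow] at this
        rw [this]
        refine sum_congr rfl fun e _ => ?_
        congr 1
        ext v
        simp
      have h2 : ∑ e ∈ H, e.card ≤ H.card * 3 := sum_le_card_nsmul H _ 3 h3
      have h4 : Fintype.card V * 6 ≤ ∑ v : V, (H.filter (fun e => v ∈ e)).card := by
        have := card_nsmul_le_sum (Finset.univ : Finset V)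
          (fun v => (H.filter (fun e => v ∈ e)).card) 6 (fun v _ => h v)
        simpa using this
      omega
  have hn : 0 < Fintype.card V := Fintype.card_pos
  have hw0 : ∀ A : Finset V, ∀ e ∈ H, (1 / 8 : ℚ) ≤ wt A (Finset.univ \ A) e := by
    intro A e he
    unfold wt
    rw [if_pos (by intro v _; simp)]
    have h5 : (e ∩ (Finset.univ \ A)).card ≤ e.card := card_le_card inter_subset_left
    have h6 := h3 e he
    calc (1 / 8 : ℚ) = (1 / 2) ^ 3 := by norm_num
      _ ≤ _ := pow_le_pow_of_le_one (by norm_num) (by norm_num) (by omega)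
  have hsum : ∀ A : Finset V, (H.card : ℚ) / 8 ≤ ∑ e ∈ H, wt A (Finset.univ \ A) e := by
    intro A
    have := card_nsmul_le_sum H (fun e => wt A (Finset.univ \ A) e) (1 / 8) (hw0 A)
    rw [nsmul_eq_mul] at this
    linarith
  have hcQ : (2 * Fintype.card V : ℚ) ≤ H.card := by exact_mod_cast hcard
  rcases Nat.even_or_odd' (Fintype.card V) with ⟨k, hk | hk⟩
  · obtain ⟨m, rfl⟩ : ∃ m, k = m + 1 := ⟨k - 1, by omega⟩
    have hk' : Fintype.card V = (2 * m + 1) + 1 := by omega
    rw [hk']
    unfold EnforcerWins
    rw [if_neg (by rw [Nat.not_odd_iff_even]; exact ⟨m + 1, by ring⟩)]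
    intro y _
    have he : (Finset.univ : Finset V).erase y = Finset.univ \ {y} := by
      rw [sdiff_singleton_eq_erase]
    rw [he]
    apply odd_turn H h3 hlin
    · rw [disjoint_left]
      intro v hv hv'
      simp at hv hv'
      exact hv' hv
    · rw [← he, card_erase_of_mem (mem_univ y), card_univ]
      omega
    · have h1 := hsum {y}
      have h2 : insert y (∅ : Finset V) = {y} := by simp
      rw [h2, card_singleton]
      rw [hk'] at hcQ
      push_cast at hcQ ⊢
      linarith
  · rw [hk]
    apply odd_turn H h3 hlin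
    · simp
    · rw [card_univ, hk]
    · have h1 := hsum ∅
      rw [sdiff_empty] at h1
      rw [card_empty]
      rw [hk] at hcQ
      push_cast at hcQ ⊢
      linarith

end Pool.Agent.Results.MP_8d7a8d_co.TwiceTheVertices
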